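import Mathlib

/-!
# A 3-diregular oriented graph on 13 vertices without a Hamilton cycle

This is a counterexample to the conjecture of Jackson (1981) that every `d`-diregular oriented graph
with `d > 2` on at most `4 d + 1` vertices has a Hamilton cycle (`d = 3`, `4 d + 1 = 13`).
-/

set_option autoImplicit false

namespace Pool.Agent.U496.Jackson

/-- The list of out-neighbours of the vertex `v` of the example. -/
def outs : Nat → List Nat
  | 0 => [3, 9, 11]
  | 1 => [0, 8, 11]
  | 2 => [0, 5, 12]
  | 3 => [1, 5, 10]
  | 4 => [1, 2, 12]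
  | 5 => [0, 7, 9]
  | 6 => [4, 8, 9]
  | 7 => [1, 4, 6]
  | 8 => [4, 7, 11]
  | 9 => [2, 3, 10]
  | 10 => [2, 5, 6]
  | 11 => [6, 10, 12]
  | 12 => [3, 7, 8]
  | _ => []

/-- The arc relation of the example. -/
def arc (u v : Nat) : Bool := (outs u).elem v

/-- Can the path which ends in `v` and has used the vertices of the mask `vis` be extended by `k`
further new vertices and then be closed at the vertex `0`? -/
def srch : Nat → Nat → Nat → Bool
  | 0, v, _ => arc v 0
  | k + 1, v, vis => (outs v).any fun w => !(Nat.testBit vis w) && srch k w (vis ||| (1 <<< w))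

theorem srch_false : srch 12 0 1 = false := by decide +kernel

theorem no_cycle (g : Nat → Nat) (h0 : g 0 = 0)
    (hinj : ∀ i j, i ≤ 12 → j ≤ 12 → g i = g j → i = j)
    (hadj : ∀ i, i < 12 → arc (g i) (g (i + 1)) = true) (hcl : arc (g 12) (g 0) = true) : False := by
  have key : ∀ m j : Nat, j + m = 12 → ∀ vis : Nat,
      (∀ i, j < i → i ≤ 12 → Nat.testBit vis (g i) = false) → srch m (g j) vis = true := by
    intro m
    induction m with
    | zero =>
      intro j hj vis _
      have : j = 12 := by omega
      subst this
      simp only [srch]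
      rw [h0] at hcl
      exact hcl
    | succ m ih =>
      intro j hj vis hvis
      simp only [srch, List.any_eq_true]
      refine ⟨g (j + 1), ?_, ?_⟩
      · have := hadj j (by omega)
        unfold arc at this
        exact List.elem_iff.1 this
      · rw [Bool.and_eq_true]
        refine ⟨?_, ?_⟩
        · rw [hvis (j + 1) (by omega) (by omega)]
          rfl
        · refine ih (j + 1) (by omega) _ (fun i hi hi2 => ?_)
          rw [Nat.testBit_lor, hvis i (by omega) hi2, Bool.false_or, Nat.one_shiftLeft,
            Nat.testBit_two_pow]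
          simp only [decide_eq_false_iff_not]
          intro h
          have := hinj _ _ (by omega) hi2 h
          omega
  have h1 := key 12 0 rfl 1 (fun i hi hi2 => by
    have h2 : g i ≠ 0 := by
      intro h
      have := hinj i 0 hi2 (by omega) (by rw [h, h0])
      omega
    rw [show (1 : Nat) = 2 ^ 0 from rfl, Nat.testBit_two_pow]
    simp only [decide_eq_false_iff_not]
    exact fun h => h2 h.symm)
  rw [h0, srch_false] at h1
  exact absurd h1 (by decide)

/-- The example. -/
def G : Digraph (Fin 13) := ⟨fun u v => arc u.val v.val = true⟩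

instance : DecidableRel G.Adj := fun u v => inferInstanceAs (Decidable (arc u.val v.val = true))

theorem G_oriented : ∀ u v : Fin 13, G.Adj u v → ¬ G.Adj v u := by decide +kernel

theorem G_out (v : Fin 13) : Set.ncard {u : Fin 13 | G.Adj v u} = 3 := by
  rw [Set.ncard_eq_toFinset_card']
  revert v
  decide +kernel

theorem G_in (v : Fin 13) : Set.ncard {u : Fin 13 | G.Adj u v} = 3 := by
  rw [Set.ncard_eq_toFinset_card']
  revert v
  decide +kernel

theorem G_no_ham : ¬ ∃ f : Fin 13 → Fin 13, Function.Bijective f ∧
    ∀ i j : Fin 13, j.val = (i.val + 1) % 13 → G.Adj (f i) (f j) := by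
  rintro ⟨f, hf, hadj⟩
  obtain ⟨i0, hi0⟩ := hf.2 0
  let idx : Nat → Fin 13 := fun k => ⟨(i0.val + k) % 13, Nat.mod_lt _ (by norm_num)⟩
  have hidx0 : idx 0 = i0 := by
    apply Fin.ext
    show (i0.val + 0) % 13 = i0.val
    have := i0.isLt
    omega
  refine no_cycle (fun k => (f (idx k)).val) ?_ ?_ ?_ ?_
  · show (f (idx 0)).val = 0
    rw [hidx0, hi0]
    rfl
  · intro i j hi hj h
    have h1 : idx i = idx j := hf.1 (Fin.ext h)
    have h2 : (i0.val + i) % 13 = (i0.val + j) % 13 := congrArg Fin.val h1
    omega
  · intro i hi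
    refine hadj (idx i) (idx (i + 1)) ?_
    show (i0.val + (i + 1)) % 13 = ((i0.val + i) % 13 + 1) % 13
    omega
  · refine hadj (idx 12) (idx 0) ?_
    show (i0.val + 0) % 13 = ((i0.val + 12) % 13 + 1) % 13
    omega

end Pool.Agent.U496.Jackson
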