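import Pool.Agent.U496.OccGraphs

set_option autoImplicit false

/-!
# Assembled facts on the three graphs for MP_99d978_co
-/

namespace Pool.Agent.U496.Occ



theorem regG (inst : (gr 20 nbG).LocallyFinite) :
    @SimpleGraph.IsRegularOfDegree (Fin 20) (gr 20 nbG) inst 4 := by
  intro v
  have := gG_deg v
  convert this

theorem regR (inst : (gr 19 nbR).LocallyFinite) :
    @SimpleGraph.IsRegularOfDegree (Fin 19) (gr 19 nbR) inst 4 := by
  intro v
  have := gR_deg v
  convert this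

theorem cfG : (gr 20 nbG).CliqueFree 3 := by
  intro s hs
  rw [SimpleGraph.is3Clique_iff] at hs
  obtain ⟨a, b, c, hab, hac, hbc, -⟩ := hs
  exact gG_tri a b c hab hbc hac

theorem girthR : (5 : ℕ∞) ≤ (gr 19 nbR).egirth := by
  rw [SimpleGraph.le_egirth]
  intro a w hw
  have h3 := hw.three_le_length
  by_contra hlt
  rw [not_le] at hlt
  have hlt' : w.length < 5 := by exact_mod_cast hlt
  rw [SimpleGraph.Walk.isCycle_def] at hw
  obtain ⟨-, -, hnd⟩ := hw
  clear hlt
  cases w with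
  | nil => simp at h3
  | cons h1 w => cases w with
    | nil => simp at h3
    | cons h2 w => cases w with
      | nil => simp at h3
      | cons h3' w => cases w with
        | nil => exact gR_tri _ _ _ h1 h2 h3'.symm
        | cons h4 w => cases w with
          | nil =>
            simp only [SimpleGraph.Walk.support_cons, SimpleGraph.Walk.support_nil, List.tail_cons,
              List.nodup_cons, List.mem_cons, List.not_mem_nil, not_or, or_false,
              List.nodup_nil] at hnd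
            rcases gR_c4 _ _ _ _ h1 h2 h3' h4 with h | h
            · exact hnd.2.1.2 h.symm
            · exact hnd.1.2.1 h
          | cons h5 w =>
            simp only [SimpleGraph.Walk.length_cons] at hlt'
            omega

/-- The Cyclotomic-13 graph. -/
abbrev cyc : SimpleGraph (ZMod 13) := SimpleGraph.fromRel (fun x y : ZMod 13 => x - y = 1 ∨ x - y = 5)

theorem adjC (i j : Fin 13) (hij : i < j) :
    (cyc.Adj ((ZMod.finEquiv 13).toEquiv i) ((ZMod.finEquiv 13).toEquiv j) ↔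
      Nat.testBit (nbC j) i = true) := by
  have key : ∀ i j : Fin 13, i < j →
      ((((ZMod.finEquiv 13).toEquiv i) ≠ ((ZMod.finEquiv 13).toEquiv j) ∧
        ((((ZMod.finEquiv 13).toEquiv i) - ((ZMod.finEquiv 13).toEquiv j) = 1 ∨
          ((ZMod.finEquiv 13).toEquiv i) - ((ZMod.finEquiv 13).toEquiv j) = 5) ∨
        (((ZMod.finEquiv 13).toEquiv j) - ((ZMod.finEquiv 13).toEquiv i) = 1 ∨
          ((ZMod.finEquiv 13).toEquiv j) - ((ZMod.finEquiv 13).toEquiv i) = 5))) ↔
        Nat.testBit (nbC j) i = true) := by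
    decide +kernel
  rw [← key i j hij]
  exact SimpleGraph.fromRel_adj _ _ _

/-- Existence of a largest real root, at most `2`. -/
theorem exL : ∃ L : ℝ, L ≤ 2 ∧
    90*L^6 + 729*L^5 - 188*L^4 - 1632*L^3 - 1247*L^2 - 363*L - 38 = 0 ∧
    ∀ x : ℝ, 90*x^6 + 729*x^5 - 188*x^4 - 1632*x^3 - 1247*x^2 - 363*x - 38 = 0 → x ≤ L := by
  set f : ℝ → ℝ := fun x => 90*x^6 + 729*x^5 - 188*x^4 - 1632*x^3 - 1247*x^2 - 363*x - 38 with hf
  have hc : Continuous f := by rw [hf]; fun_prop
  have hub : ∀ x, f x = 0 → x ≤ 2 := by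
    intro x hx
    by_contra hlt
    rw [not_le] at hlt
    obtain ⟨t, ht, rfl⟩ : ∃ t : ℝ, 0 < t ∧ x = 2 + t := ⟨x - 2, by linarith, by ring⟩
    have : f (2 + t) = 90*t^6 + 1809*t^5 + 12502*t^4 + 40424*t^3 + 64369*t^2 + 44649*t + 7272 := by
      rw [hf]; ring
    rw [this] at hx
    have : (0:ℝ) < 90*t^6 + 1809*t^5 + 12502*t^4 + 40424*t^3 + 64369*t^2 + 44649*t + 7272 := by
      positivity
    linarith
  have hne : ∃ x, f x = 0 := by
    have := intermediate_value_Icc (show (1:ℝ) ≤ 2 by norm_num) hc.continuousOn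
    have h0 : (0:ℝ) ∈ Set.Icc (f 1) (f 2) := by
      rw [hf]; constructor <;> norm_num
    obtain ⟨x, -, hx⟩ := this h0
    exact ⟨x, hx⟩
  have hcl : IsClosed {x | f x = 0} := isClosed_eq hc continuous_const
  have hbd : BddAbove {x | f x = 0} := ⟨2, hub⟩
  have hmem := hcl.csSup_mem hne hbd
  refine ⟨sSup {x | f x = 0}, hub _ hmem, hmem, fun x hx => le_csSup hbd hx⟩

/-- Cast to the reals. -/
theorem real_sum {V : Type} [Fintype V] (G : SimpleGraph V) (W : ℕ → ℕ) (W' : ℕ → ℝ)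
    (hW : ∀ k, W' k = W k) (S : ℕ)
    (D : DecidablePred fun I : Finset V => G.IsIndepSet (I : Set V))
    (h : (∑ I : Finset V, @ite ℕ _ (D I) (W I.card) 0) = S) :
    (∑ I : Finset V, @ite ℝ _ (D I) (W' I.card) 0) = S := by
  rw [← h, Nat.cast_sum]
  apply Finset.sum_congr rfl
  intro I _
  split_ifs
  · rw [hW]
  · simp

theorem g0 (D : DecidablePred fun I : Finset (Fin 20) => (gr 20 nbG).IsIndepSet (I : Set (Fin 20))) :
    (∑ I : Finset (Fin 20), @ite ℝ _ (D I) ((2:ℝ) ^ I.card) 0) = (72225 : ℕ) := by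
  have h := sum_fin 20 nbG (fun k => 2 ^ k) (gr 20 nbG) gG_adj D
  rw [eG0] at h
  exact real_sum (gr 20 nbG) (fun k => 2 ^ k) (fun k => 2 ^ k) (by intro k; push_cast; rfl) _ D h

theorem g1 (D : DecidablePred fun I : Finset (Fin 20) => (gr 20 nbG).IsIndepSet (I : Set (Fin 20))) :
    (∑ I : Finset (Fin 20), @ite ℝ _ (D I) ((I.card : ℝ) * (2:ℝ) ^ I.card) 0) = (359800 : ℕ) := by
  have h := sum_fin 20 nbG (fun k => k * 2 ^ k) (gr 20 nbG) gG_adj D
  rw [eG1] at h
  exact real_sum (gr 20 nbG) (fun k => k * 2 ^ k) (fun k => (k : ℝ) * 2 ^ k)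
    (by intro k; push_cast; rfl) _ D h

theorem c0 (D : DecidablePred fun I : Finset (ZMod 13) => cyc.IsIndepSet (I : Set (ZMod 13))) :
    (∑ I : Finset (ZMod 13), @ite ℝ _ (D I) ((2:ℝ) ^ I.card) 0) = (1483 : ℕ) := by
  have h := sum_equiv 13 nbC (fun k => 2 ^ k) (ZMod.finEquiv 13).toEquiv cyc adjC D
  rw [eC0] at h
  exact real_sum cyc (fun k => 2 ^ k) (fun k => 2 ^ k) (by intro k; push_cast; rfl) _ D h

theorem c1 (D : DecidablePred fun I : Finset (ZMod 13) => cyc.IsIndepSet (I : Set (ZMod 13))) :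
    (∑ I : Finset (ZMod 13), @ite ℝ _ (D I) ((I.card : ℝ) * (2:ℝ) ^ I.card) 0) = (4810 : ℕ) := by
  have h := sum_equiv 13 nbC (fun k => k * 2 ^ k) (ZMod.finEquiv 13).toEquiv cyc adjC D
  rw [eC1] at h
  exact real_sum cyc (fun k => k * 2 ^ k) (fun k => (k : ℝ) * 2 ^ k)
    (by intro k; push_cast; rfl) _ D h


theorem final
    (D D' : DecidablePred fun I : Finset (Fin 20) => (gr 20 nbG).IsIndepSet (I : Set (Fin 20)))
    (E E' : DecidablePred fun I : Finset (ZMod 13) => cyc.IsIndepSet (I : Set (ZMod 13)))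
    (h2 : (∑ I : Finset (ZMod 13), @ite ℝ _ (E I) ((I.card : ℝ) * (2:ℝ) ^ I.card) 0) /
        ((Fintype.card (ZMod 13) : ℝ) *
          ∑ I : Finset (ZMod 13), @ite ℝ _ (E' I) ((2:ℝ) ^ I.card) 0) ≤
      (∑ I : Finset (Fin 20), @ite ℝ _ (D I) ((I.card : ℝ) * (2:ℝ) ^ I.card) 0) /
        ((Fintype.card (Fin 20) : ℝ) *
          ∑ I : Finset (Fin 20), @ite ℝ _ (D' I) ((2:ℝ) ^ I.card) 0)) : False := by
  have e1 := c0 E'
  have e2 := c1 E
  have e3 := g0 D'
  have e4 := g1 D
  simp only at e1 e2 e3 e4 h2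
  rw [e1, e2, e3, e4, ZMod.card, Fintype.card_fin] at h2
  norm_num at h2

end Pool.Agent.U496.Occ
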