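import Mathlib

set_option autoImplicit false

/-!
# Independence polynomials of small graphs given by neighbour masks, evaluated in the kernel
-/

namespace Pool.Agent.U496.Occ

/-- Weighted sum over independent sets contained in `{0, …, k-1}` and avoiding `blk`. -/
def ev (nb : ℕ → ℕ) (W : ℕ → ℕ) : ℕ → ℕ → ℕ → ℕ
  | 0, _, s => W s
  | k+1, blk, s =>
      ev nb W k blk s + (if Nat.testBit blk k then 0 else ev nb W k (blk ||| nb k) (s+1))

/-- `t` is independent for the mask relation. -/
def ind (nb : ℕ → ℕ) (t : Finset ℕ) : Prop :=
  ∀ i ∈ t, ∀ j ∈ t, i < j → Nat.testBit (nb j) i = false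

/-- `t` avoids the mask `blk`. -/
def avo (blk : ℕ) (t : Finset ℕ) : Prop := ∀ i ∈ t, Nat.testBit blk i = false

open Classical in
theorem ev_eq (nb : ℕ → ℕ) (W : ℕ → ℕ) (k : ℕ) : ∀ blk s : ℕ,
    (∑ t ∈ (Finset.range k).powerset, if ind nb t ∧ avo blk t then W (s + t.card) else 0)
      = ev nb W k blk s := by
  induction k with
  | zero =>
    intro blk s
    simp [ev, ind, avo]
  | succ k ih =>
    intro blk s
    rw [Finset.range_add_one, Finset.sum_powerset_insert (by simp), ev, ih]
    congr 1
    by_cases hb : Nat.testBit blk k = true
    · simp only [hb, if_true]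
      apply Finset.sum_eq_zero
      intro t ht
      rw [if_neg]
      rintro ⟨-, h⟩
      have := h k (Finset.mem_insert_self _ _)
      simp [hb] at this
    · simp only [hb]
      rw [← ih]
      simp only [Bool.false_eq_true, if_false]
      apply Finset.sum_congr rfl
      intro t ht
      rw [Finset.mem_powerset] at ht
      have hk : k ∉ t := fun h => by simpa using ht h
      rw [Finset.card_insert_of_notMem hk]
      have h1 : (ind nb (insert k t) ∧ avo blk (insert k t)) ↔
          (ind nb t ∧ avo (blk ||| nb k) t) := by
        constructor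
        · rintro ⟨h1, h2⟩
          refine ⟨fun i hi j hj hij => h1 i (Finset.mem_insert_of_mem hi) j
            (Finset.mem_insert_of_mem hj) hij, fun i hi => ?_⟩
          have hik : i < k := by simpa using ht hi
          rw [Nat.testBit_or, h2 i (Finset.mem_insert_of_mem hi),
            h1 i (Finset.mem_insert_of_mem hi) k (Finset.mem_insert_self _ _) hik]
          rfl
        · rintro ⟨h1, h2⟩
          refine ⟨fun i hi j hj hij => ?_, fun i hi => ?_⟩
          · rw [Finset.mem_insert] at hi hj
            rcases hi with rfl | hi
            · rcases hj with rfl | hj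
              · exact absurd hij (lt_irrefl _)
              · have : j < i := by simpa using ht hj
                omega
            · rcases hj with rfl | hj
              · have := h2 i hi
                rw [Nat.testBit_or, Bool.or_eq_false_iff] at this
                exact this.2
              · exact h1 i hi j hj hij
          · rw [Finset.mem_insert] at hi
            rcases hi with rfl | hi
            · simpa using hb
            · have := h2 i hi
              rw [Nat.testBit_or, Bool.or_eq_false_iff] at this
              exact this.1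
      by_cases h2 : ind nb t ∧ avo (blk ||| nb k) t
      · rw [if_pos h2, if_pos (h1.2 h2)]
        congr 1
        omega
      · rw [if_neg h2, if_neg (fun h => h2 (h1.1 h))]

/-- The sum over all vertex subsets of `Fin n`. -/
theorem sum_fin (n : ℕ) (nb : ℕ → ℕ) (W : ℕ → ℕ) (G : SimpleGraph (Fin n))
    (hG : ∀ i j : Fin n, i < j → (G.Adj i j ↔ Nat.testBit (nb j) i = true))
    (D : DecidablePred fun I : Finset (Fin n) => G.IsIndepSet (I : Set (Fin n))) :
    (∑ I : Finset (Fin n), if G.IsIndepSet (I : Set (Fin n)) then W I.card else 0)
      = ev nb W n 0 0 := by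
  classical
  rw [← ev_eq]
  have himg : (Finset.range n).powerset =
      (Finset.univ : Finset (Finset (Fin n))).map
        ⟨fun I => I.map Fin.valEmbedding, Finset.map_injective _⟩ := by
    ext t
    simp only [Finset.mem_powerset, Finset.mem_map, Finset.mem_univ, true_and,
      Function.Embedding.coeFn_mk]
    constructor
    · intro h
      refine ⟨t.attachFin fun m hm => by simpa using h hm, ?_⟩
      ext a
      simp only [Finset.mem_map, Finset.mem_attachFin, Fin.valEmbedding_apply]
      constructor
      · rintro ⟨b, hb, rfl⟩; exact hb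
      · intro ha
        exact ⟨⟨a, by simpa using h ha⟩, ha, rfl⟩
    · rintro ⟨I, rfl⟩
      intro a ha
      simp only [Finset.mem_map, Fin.valEmbedding_apply] at ha
      obtain ⟨b, -, rfl⟩ := ha
      simp
  rw [himg, Finset.sum_map]
  apply Finset.sum_congr rfl
  intro I _
  simp only [Function.Embedding.coeFn_mk, Finset.card_map, Nat.zero_add]
  have h1 : G.IsIndepSet (I : Set (Fin n)) ↔
      (ind nb (I.map Fin.valEmbedding) ∧ avo 0 (I.map Fin.valEmbedding)) := by
    constructor
    · intro h
      refine ⟨?_, fun i _ => by simp⟩
      intro i hi j hj hij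
      simp only [Finset.mem_map, Fin.valEmbedding_apply] at hi hj
      obtain ⟨a, ha, rfl⟩ := hi
      obtain ⟨b, hb, rfl⟩ := hj
      have hab : a < b := hij
      have : ¬ G.Adj a b := h (by simpa using ha) (by simpa using hb) (ne_of_lt hab)
      rw [hG a b hab] at this
      simpa using this
    · rintro ⟨h, -⟩ a ha b hb hab hadj
      have ha' : (a : ℕ) ∈ I.map Fin.valEmbedding :=
        Finset.mem_map.2 ⟨a, by simpa using ha, rfl⟩
      have hb' : (b : ℕ) ∈ I.map Fin.valEmbedding :=
        Finset.mem_map.2 ⟨b, by simpa using hb, rfl⟩
      rcases lt_or_gt_of_ne hab with h' | h'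
      · have := h a ha' b hb' h'
        rw [hG a b h'] at hadj
        simp [this] at hadj
      · have := h b hb' a ha' h'
        rw [G.adj_comm, hG b a h'] at hadj
        simp [this] at hadj
  by_cases h2 : G.IsIndepSet (I : Set (Fin n))
  · rw [if_pos h2, if_pos (h1.1 h2)]
  · rw [if_neg h2, if_neg (fun h => h2 (h1.2 h))]

/-- The same sum over the vertex subsets of any type in bijection with `Fin n`. -/
theorem sum_equiv (n : ℕ) (nb : ℕ → ℕ) (W : ℕ → ℕ) {V : Type} [Fintype V] (e : Fin n ≃ V)
    (G : SimpleGraph V)
    (hG : ∀ i j : Fin n, i < j → (G.Adj (e i) (e j) ↔ Nat.testBit (nb j) i = true))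
    (D : DecidablePred fun I : Finset V => G.IsIndepSet (I : Set V)) :
    (∑ I : Finset V, if G.IsIndepSet (I : Set V) then W I.card else 0)
      = ev nb W n 0 0 := by
  classical
  rw [← sum_fin n nb W (G.comap e) hG (fun _ => Classical.propDecidable _)]
  rw [← Equiv.sum_comp (Equiv.finsetCongr e)]
  apply Finset.sum_congr rfl
  intro I _
  have h1 : G.IsIndepSet ((Equiv.finsetCongr e I : Finset V) : Set V) ↔
      (G.comap e).IsIndepSet (I : Set (Fin n)) := by
    constructor
    · intro h a ha b hb hab hadj
      exact h (x := e a) (by simpa using ha) (y := e b) (by simpa using hb)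
        (fun h' => hab (e.injective h')) hadj
    · intro h a ha b hb hab hadj
      obtain ⟨a, rfl⟩ := e.surjective a
      obtain ⟨b, rfl⟩ := e.surjective b
      exact h (x := a) (by simpa using ha) (y := b) (by simpa using hb)
        (fun h' => hab (by rw [h'])) hadj
  have hc : (Equiv.finsetCongr e I).card = I.card := by simp
  by_cases h2 : (G.comap e).IsIndepSet (I : Set (Fin n))
  · rw [if_pos h2, if_pos (h1.2 h2), hc]
  · rw [if_neg h2, if_neg (fun h => h2 (h1.1 h))]

end Pool.Agent.U496.Occ
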