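import Pool.Agent.U496.Occ

set_option autoImplicit false

/-!
# The three graphs used for MP_99d978_co
-/

namespace Pool.Agent.U496.Occ

/-- Neighbour masks of the example on 20 vertices. -/
def nbG : ℕ → ℕ
  | 0 => 35856
  | 1 => 595968
  | 2 => 787968
  | 3 => 557248
  | 4 => 4737
  | 5 => 213120
  | 6 => 82952
  | 7 => 262200
  | 8 => 57856
  | 9 => 65812
  | 10 => 131141
  | 11 => 278531
  | 12 => 163858
  | 13 => 917760
  | 14 => 2400
  | 15 => 4361
  | 16 => 610
  | 17 => 13344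
  | 18 => 10372
  | 19 => 8206
  | _ => 0

/-- Neighbour masks of the Robertson graph. -/
def nbR : ℕ → ℕ
  | 0 => 294930
  | 1 => 4357
  | 2 => 131146
  | 3 => 18452
  | 4 => 553
  | 5 => 69712
  | 6 => 1188
  | 7 => 278848
  | 8 => 66178
  | 9 => 9488
  | 10 => 35392
  | 11 => 267272
  | 12 => 10274
  | 13 => 152064
  | 14 => 41096
  | 15 => 82945
  | 16 => 164128
  | 17 => 335876
  | 18 => 133249
  | _ => 0

/-- Neighbour masks of the Cyclotomic-13 graph. -/
def nbC : ℕ → ℕ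
  | 0 => 4386
  | 1 => 581
  | 2 => 1162
  | 3 => 2324
  | 4 => 4648
  | 5 => 1105
  | 6 => 2210
  | 7 => 4420
  | 8 => 649
  | 9 => 1298
  | 10 => 2596
  | 11 => 5192
  | 12 => 2193
  | _ => 0

/-- The graph on `Fin n` given by a mask function (symmetrised, loopless). -/
def gr (n : ℕ) (nb : ℕ → ℕ) : SimpleGraph (Fin n) where
  Adj i j := (decide (i ≠ j) && (Nat.testBit (nb j) i && Nat.testBit (nb i) j)) = true
  symm := ⟨fun i j h => by
    simp only [Bool.and_eq_true, decide_eq_true_eq] at h ⊢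
    exact ⟨h.1.symm, h.2.2, h.2.1⟩⟩
  loopless := ⟨fun i h => by simp at h⟩

instance (n : ℕ) (nb : ℕ → ℕ) : DecidableRel (gr n nb).Adj := fun i j =>
  inferInstanceAs (Decidable ((decide (i ≠ j) && (Nat.testBit (nb j) i && Nat.testBit (nb i) j)) = true))

theorem gG_adj : ∀ i j : Fin 20, i < j →
    ((gr 20 nbG).Adj i j ↔ Nat.testBit (nbG j) i = true) := by
  decide +kernel

theorem gG_deg : ∀ v : Fin 20, (gr 20 nbG).degree v = 4 := by
  decide +kernel

theorem gG_tri : ∀ a b c : Fin 20, (gr 20 nbG).Adj a b → (gr 20 nbG).Adj b c →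
    ¬ (gr 20 nbG).Adj a c := by
  decide +kernel

theorem gR_deg : ∀ v : Fin 19, (gr 19 nbR).degree v = 4 := by
  decide +kernel

theorem gR_tri : ∀ a b c : Fin 19, (gr 19 nbR).Adj a b → (gr 19 nbR).Adj b c →
    ¬ (gr 19 nbR).Adj a c := by
  decide +kernel

theorem gR_c4 : ∀ a b c d : Fin 19, (gr 19 nbR).Adj a b → (gr 19 nbR).Adj b c →
    (gr 19 nbR).Adj c d → (gr 19 nbR).Adj d a → a = c ∨ b = d := by
  decide +kernel

theorem eG0 : ev nbG (fun k => 2 ^ k) 20 0 0 = 72225 := by decide +kernel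
theorem eG1 : ev nbG (fun k => k * 2 ^ k) 20 0 0 = 359800 := by decide +kernel
theorem eC0 : ev nbC (fun k => 2 ^ k) 13 0 0 = 1483 := by decide +kernel
theorem eC1 : ev nbC (fun k => k * 2 ^ k) 13 0 0 = 4810 := by decide +kernel

end Pool.Agent.U496.Occ
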